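import Pool.Agent.H93.BL.Targets

/-! Module A1: chains of a `HoleSys`. -/

namespace Pool.Agent.H33.BL.A1

open MeasureTheory Set Pool.Agent.H93.BL

theorem a1a : T_A1a := by
  intro κ S m
  induction m with
  | zero =>
    intro n z z''
    rw [zero_add]
    constructor
    · intro h
      exact ⟨z, rfl, h⟩
    · rintro ⟨z', h, h'⟩
      have h1 : z = z' := h
      rw [h1]
      exact h'
  | succ m ih =>
    intro n z z''
    have e : m + 1 + n = (m + n) + 1 := by omega
    rw [e]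
    constructor
    · rintro ⟨y, hy, h⟩
      obtain ⟨z', h1, h2⟩ := (ih n y z'').1 h
      exact ⟨z', ⟨y, hy, h1⟩, h2⟩
    · rintro ⟨z', ⟨y, hy, h1⟩, h2⟩
      exact ⟨y, hy, (ih n y z'').2 ⟨z', h1, h2⟩⟩

theorem a1b : T_A1b := by
  intro κ S n
  induction n with
  | zero =>
    intro z z' z'' h h'
    have h1 : z = z' := h
    have h2 : z = z'' := h'
    rw [← h1, ← h2]
  | succ n ih =>
    rintro z z' z'' ⟨y, hy, h⟩ ⟨y', hy', h'⟩
    have h1 : y = y' := S.fn z y y' hy hy'
    subst h1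
    exact ih y z' z'' h h'

theorem a1c : T_A1c := by
  intro κ S n
  induction n with
  | zero =>
    intro z z' z'' h h'
    have h1 : z = z'' := h
    have h2 : z' = z'' := h'
    rw [h1, h2]
  | succ n ih =>
    rintro z z' z'' ⟨y, hy, h⟩ ⟨y', hy', h'⟩
    have h1 : y = y' := ih y y' z'' h h'
    subst h1
    exact S.inj z z' y hy hy'

theorem a1d : T_A1d := by
  intro κ S n
  induction n with
  | zero =>
    intro k k' t t' h
    have h1 : (k, t) = (k', t') := h
    have h2 : k = k' := congrArg Prod.fst h1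
    have h3 : t = t' := congrArg Prod.snd h1
    subst h2
    subst h3
    refine ⟨1, one_pos, fun δ _ => ?_⟩
    show (k, t + δ) = (k, t + (-1) ^ 0 * δ)
    rw [pow_zero, one_mul]
  | succ n ih =>
    rintro k k' t t' ⟨⟨k1, t1⟩, hy, h⟩
    obtain ⟨ε1, hε1, h1⟩ := S.loc k t k1 t1 hy
    obtain ⟨ε2, hε2, h2⟩ := ih k1 k' t1 t' h
    refine ⟨min ε1 ε2, lt_min hε1 hε2, fun δ hδ => ?_⟩
    refine ⟨(k1, t1 - δ), h1 δ (hδ.trans_le (min_le_left _ _)), ?_⟩
    have h3 := h2 (-δ) (by rw [abs_neg]; exact hδ.trans_le (min_le_right _ _))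
    have e1 : t1 + -δ = t1 - δ := by ring
    have e2 : t' + (-1) ^ n * -δ = t' + (-1) ^ (n + 1) * δ := by ring
    rw [e1, e2] at h3
    exact h3

end Pool.Agent.H33.BL.A1
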